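import Pool.Agent.helper14.NS.Q45a.PN6

/-!
Generated: certificates.
-/

namespace Pool.Agent.helper14.NS.Q45a

open Pool.Agent.helper31.IA (Z)
open Pool.Agent.helper31.IX (Op XOps runX Cov CovD cov_split covD_split)
open Pool.Agent.helper31.IC (TD)
open Pool.Agent.helper63.RG (reloc)
open Pool.Agent.helper63.NF hiding TD
open Pool.Agent.helper4.NS
open Pool.Agent.helper14.CF (xE covD_E)
open Pool.Agent.helper14.NR (share)

mutual
theorem A6_c0_t6 : CovD 1 gA6 [(20301479936, 4132438016), (137438953472, 137438953472), (68719476736, 68719476736)] :=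
  covD_E kA6_eq (.n 2 (.l 2) (.n 1 (.n 2 (.l 2) (.n 2 (.l 2) (.n 0 (.n 1 (.n 1 (.n 1 (.l 0) (.l 0)) (.l 0)) (.l 0)) (.n 1 (.n 1 (.n 1 (.l 0) (.l 0)) (.l 0)) (.l 0))))) (.n 0 (.l 0) (.l 0))))
    [(20301479936, 4132438016), (137438953472, 137438953472), (68719476736, 68719476736)] rfl (by decide +kernel)
theorem A6_c0_t8 : CovD 1 gA6 [(18235260928, 2066219008), (137438953472, 137438953472), (206158430208, 68719476736)] :=
  covD_E kA6_eq (.n 1 (.n 1 (.n 1 (.n 2 (.n 2 (.n 1 (.l 0) (.l 0)) (.l 0)) (.n 1 (.l 0) (.l 0))) (.n 2 (.n 2 (.l 0) (.l 0)) (.n 1 (.l 0) (.l 0)))) (.n 1 (.n 2 (.l 0) (.l 0)) (.n 1 (.l 0) (.l 0)))) (.n 2 (.l 0) (.l 0)))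
    [(18235260928, 2066219008), (137438953472, 137438953472), (206158430208, 68719476736)] rfl (by decide +kernel)
end

mutual
theorem A6_c0_t9 : CovD 1 gA6 [(22367698944, 2066219008), (137438953472, 137438953472), (206158430208, 68719476736)] :=
  covD_E kA6_eq (.n 1 (.n 1 (.n 1 (.n 2 (.n 2 (.n 1 (.l 0) (.l 0)) (.l 0)) (.n 1 (.l 0) (.l 0))) (.n 2 (.n 2 (.l 0) (.l 0)) (.n 0 (.l 0) (.l 0)))) (.n 1 (.n 2 (.l 0) (.l 0)) (.n 1 (.l 0) (.l 0)))) (.n 1 (.l 0) (.l 0)))
    [(22367698944, 2066219008), (137438953472, 137438953472), (206158430208, 68719476736)] rfl (by decide +kernel)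
theorem A6_c0_t11 : CovD 1 gA6 [(18235260928, 2066219008), (137438953472, 137438953472), (412316860416, 137438953472)] :=
  covD_E kA6_eq (.n 1 (.n 1 (.n 1 (.n 2 (.n 2 (.l 0) (.l 0)) (.l 0)) (.n 2 (.n 2 (.l 0) (.l 0)) (.l 0))) (.n 1 (.n 2 (.n 1 (.l 0) (.l 0)) (.l 0)) (.n 2 (.l 0) (.l 0)))) (.n 1 (.n 2 (.n 0 (.l 0) (.l 0)) (.l 0)) (.n 2 (.l 0) (.l 0))))
    [(18235260928, 2066219008), (137438953472, 137438953472), (412316860416, 137438953472)] rfl (by decide +kernel)
end

mutual
theorem A6_c0_t12 : CovD 1 gA6 [(22367698944, 2066219008), (137438953472, 137438953472), (412316860416, 137438953472)] :=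
  covD_E kA6_eq (.n 1 (.n 1 (.n 1 (.n 2 (.n 1 (.l 0) (.l 0)) (.l 0)) (.n 2 (.n 1 (.l 0) (.l 0)) (.l 0))) (.n 1 (.n 2 (.n 1 (.l 0) (.l 0)) (.l 0)) (.n 2 (.l 0) (.l 0)))) (.n 1 (.n 2 (.l 0) (.l 0)) (.n 2 (.l 0) (.l 0))))
    [(22367698944, 2066219008), (137438953472, 137438953472), (412316860416, 137438953472)] rfl (by decide +kernel)
theorem A6_c0_t14 : CovD 1 gA6 [(18235260928, 2066219008), (137438953472, 137438953472), (824633720832, 274877906944)] :=
  covD_E kA6_eq (.n 1 (.n 2 (.n 1 (.n 2 (.l 0) (.l 0)) (.n 2 (.l 0) (.l 0))) (.n 2 (.n 0 (.l 0) (.l 0)) (.l 0))) (.n 2 (.n 1 (.n 2 (.l 0) (.l 0)) (.n 2 (.l 0) (.l 0))) (.n 2 (.n 0 (.l 0) (.l 0)) (.l 0))))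
    [(18235260928, 2066219008), (137438953472, 137438953472), (824633720832, 274877906944)] rfl (by decide +kernel)
end

mutual
theorem A6_c0_t15 : CovD 1 gA6 [(22367698944, 2066219008), (137438953472, 137438953472), (824633720832, 274877906944)] :=
  covD_E kA6_eq (.n 1 (.n 2 (.n 1 (.n 2 (.l 0) (.l 0)) (.n 2 (.l 0) (.l 0))) (.n 2 (.l 0) (.l 0))) (.n 1 (.n 2 (.n 2 (.l 0) (.l 0)) (.l 0)) (.n 2 (.n 2 (.l 0) (.l 0)) (.l 0))))
    [(22367698944, 2066219008), (137438953472, 137438953472), (824633720832, 274877906944)] rfl (by decide +kernel)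
theorem A6_c0_t17 : CovD 1 gA6 [(20301479936, 4132438016), (137438953472, 137438953472), (1374389534720, 274877906944)] :=
  covD_E kA6_eq (.n 0 (.n 2 (.n 1 (.n 2 (.l 0) (.l 0)) (.n 0 (.l 0) (.l 0))) (.n 2 (.n 0 (.l 0) (.l 0)) (.l 0))) (.n 1 (.n 2 (.n 0 (.l 0) (.l 0)) (.l 0)) (.n 2 (.n 0 (.l 0) (.l 0)) (.l 0))))
    [(20301479936, 4132438016), (137438953472, 137438953472), (1374389534720, 274877906944)] rfl (by decide +kernel)
end

mutual
theorem A6_c0_t18 : CovD 1 gA6 [(20301479936, 4132438016), (137438953472, 137438953472), (1924145348608, 274877906944)] :=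
  covD_E kA6_eq (.n 0 (.n 2 (.n 2 (.l 0) (.l 0)) (.n 1 (.l 0) (.l 0))) (.n 1 (.n 2 (.l 0) (.l 0)) (.n 2 (.l 0) (.l 0))))
    [(20301479936, 4132438016), (137438953472, 137438953472), (1924145348608, 274877906944)] rfl (by decide +kernel)
theorem A6_c0_t21 : CovD 1 gA6 [(20301479936, 4132438016), (137438953472, 137438953472), (2473901162496, 274877906944)] :=
  covD_E kA6_eq (.n 0 (.n 1 (.n 2 (.l 0) (.l 0)) (.n 2 (.l 0) (.l 0))) (.n 0 (.n 2 (.l 0) (.l 0)) (.n 2 (.l 0) (.l 0))))
    [(20301479936, 4132438016), (137438953472, 137438953472), (2473901162496, 274877906944)] rfl (by decide +kernel)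
end

mutual
theorem A6_c0_t25 : CovD 1 gA6 [(17202151424, 1033109504), (137438953472, 137438953472), (2886218022912, 137438953472)] :=
  covD_E kA6_eq (.l 0)
    [(17202151424, 1033109504), (137438953472, 137438953472), (2886218022912, 137438953472)] rfl (by decide +kernel)
theorem A6_c0_t28 : CovD 1 gA6 [(17202151424, 1033109504), (137438953472, 137438953472), (3058016714752, 34359738368)] :=
  covD_E kA6_eq (.n 0 (.n 0 (.n 0 (.l 0) (.l 0)) (.l 0)) (.n 0 (.l 0) (.l 0)))
    [(17202151424, 1033109504), (137438953472, 137438953472), (3058016714752, 34359738368)] rfl (by decide +kernel)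
end

mutual
theorem A6_c0_t31 : CovD 1 gA6 [(16685596672, 516554752), (137438953472, 137438953472), (3109556322304, 17179869184)] :=
  covD_E kA6_eq (.n 0 (.n 0 (.n 1 (.l 1) (.l 1)) (.n 1 (.l 1) (.l 1))) (.n 0 (.n 1 (.l 1) (.l 1)) (.n 1 (.l 1) (.n 0 (.l 1) (.l 1)))))
    [(16685596672, 516554752), (137438953472, 137438953472), (3109556322304, 17179869184)] rfl (by decide +kernel)
theorem A6_c0_t32 : CovD 1 gA6 [(17718706176, 516554752), (137438953472, 137438953472), (3109556322304, 17179869184)] :=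
  covD_E kA6_eq (.n 2 (.n 0 (.n 2 (.n 0 (.l 0) (.l 0)) (.l 1)) (.n 0 (.n 2 (.l 0) (.l 1)) (.n 1 (.l 0) (.l 0)))) (.l 1))
    [(17718706176, 516554752), (137438953472, 137438953472), (3109556322304, 17179869184)] rfl (by decide +kernel)
end

mutual
theorem A6_c0_t33 : CovD 1 gA6 [(17202151424, 1033109504), (137438953472, 137438953472), (3143916060672, 17179869184)] :=
  covD_E kA6_eq (.l 1)
    [(17202151424, 1033109504), (137438953472, 137438953472), (3143916060672, 17179869184)] rfl (by decide +kernel)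
theorem A6_c0_t34 : CovD 1 gA6 [(17202151424, 1033109504), (137438953472, 137438953472), (3229815406592, 68719476736)] :=
  covD_E kA6_eq (.l 1)
    [(17202151424, 1033109504), (137438953472, 137438953472), (3229815406592, 68719476736)] rfl (by decide +kernel)
end

mutual
theorem A6_c0_t36 : CovD 1 gA6 [(19268370432, 1033109504), (137438953472, 137438953472), (2886218022912, 137438953472)] :=
  covD_E kA6_eq (.l 0)
    [(19268370432, 1033109504), (137438953472, 137438953472), (2886218022912, 137438953472)] rfl (by decide +kernel)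
theorem A6_c0_t39 : CovD 1 gA6 [(18751815680, 516554752), (137438953472, 137438953472), (3092376453120, 68719476736)] :=
  covD_E kA6_eq (.n 2 (.n 0 (.l 0) (.l 0)) (.n 2 (.n 0 (.n 2 (.n 2 (.l 0) (.n 1 (.l 1) (.l 1))) (.l 1)) (.n 2 (.n 1 (.l 0) (.l 0)) (.l 1))) (.l 1)))
    [(18751815680, 516554752), (137438953472, 137438953472), (3092376453120, 68719476736)] rfl (by decide +kernel)
end

mutual
theorem A6_c0_t40 : CovD 1 gA6 [(19784925184, 516554752), (137438953472, 137438953472), (3092376453120, 68719476736)] :=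
  covD_E kA6_eq (.n 2 (.l 0) (.n 2 (.n 0 (.n 2 (.n 0 (.l 0) (.l 0)) (.l 1)) (.n 2 (.l 0) (.n 0 (.l 1) (.l 1)))) (.l 1)))
    [(19784925184, 516554752), (137438953472, 137438953472), (3092376453120, 68719476736)] rfl (by decide +kernel)
theorem A6_c0_t41 : CovD 1 gA6 [(19268370432, 1033109504), (137438953472, 137438953472), (3229815406592, 68719476736)] :=
  covD_E kA6_eq (.l 1)
    [(19268370432, 1033109504), (137438953472, 137438953472), (3229815406592, 68719476736)] rfl (by decide +kernel)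
end

mutual
theorem A6_c0_t44 : CovD 1 gA6 [(21334589440, 1033109504), (137438953472, 137438953472), (2886218022912, 137438953472)] :=
  covD_E kA6_eq (.l 0)
    [(21334589440, 1033109504), (137438953472, 137438953472), (2886218022912, 137438953472)] rfl (by decide +kernel)
theorem A6_c0_t47 : CovD 1 gA6 [(20818034688, 516554752), (137438953472, 137438953472), (3092376453120, 68719476736)] :=
  covD_E kA6_eq (.n 2 (.l 0) (.n 2 (.n 0 (.n 2 (.l 0) (.n 1 (.l 1) (.l 1))) (.n 2 (.l 0) (.n 2 (.n 0 (.l 0) (.l 0)) (.l 1)))) (.l 1)))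
    [(20818034688, 516554752), (137438953472, 137438953472), (3092376453120, 68719476736)] rfl (by decide +kernel)
end

mutual
theorem A6_c0_t48 : CovD 1 gA6 [(21851144192, 516554752), (137438953472, 137438953472), (3092376453120, 68719476736)] :=
  covD_E kA6_eq (.n 2 (.l 0) (.n 0 (.n 2 (.n 2 (.l 0) (.n 2 (.l 0) (.l 1))) (.l 1)) (.n 2 (.n 1 (.l 0) (.l 0)) (.l 1))))
    [(21851144192, 516554752), (137438953472, 137438953472), (3092376453120, 68719476736)] rfl (by decide +kernel)
theorem A6_c0_t49 : CovD 1 gA6 [(21334589440, 1033109504), (137438953472, 137438953472), (3229815406592, 68719476736)] :=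
  covD_E kA6_eq (.l 1)
    [(21334589440, 1033109504), (137438953472, 137438953472), (3229815406592, 68719476736)] rfl (by decide +kernel)
end

mutual
theorem A6_c0_t50 : CovD 1 gA6 [(23400808448, 1033109504), (137438953472, 137438953472), (3023656976384, 274877906944)] :=
  covD_E kA6_eq (.n 2 (.l 0) (.n 0 (.n 2 (.n 2 (.l 0) (.n 2 (.n 0 (.n 0 (.l 0) (.l 0)) (.l 0)) (.n 1 (.l 1) (.l 1)))) (.l 1)) (.n 2 (.n 2 (.l 0) (.n 0 (.n 2 (.l 0) (.n 0 (.l 1) (.l 1))) (.n 2 (.l 0) (.n 1 (.l 1) (.l 1))))) (.l 1))))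
    [(23400808448, 1033109504), (137438953472, 137438953472), (3023656976384, 274877906944)] rfl (by decide +kernel)
theorem A6_c0_t51 : CovD 1 gA6 [(20301479936, 4132438016), (137438953472, 137438953472), (3848290697216, 549755813888)] :=
  covD_E kA6_eq (.n 2 (.n 0 (.l 1) (.l 1)) (.l 1))
    [(20301479936, 4132438016), (137438953472, 137438953472), (3848290697216, 549755813888)] rfl (by decide +kernel)
end

mutual
theorem A6_c0_t52 : CovD 1 gA6 [(20301479936, 4132438016), (137438953472, 137438953472), (6597069766656, 2199023255552)] :=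
  covD_E kA6_eq (.n 2 (.n 2 (.n 2 (.l 1) (.l 1)) (.n 2 (.l 1) (.l 1))) (.n 2 (.l 1) (.l 1)))
    [(20301479936, 4132438016), (137438953472, 137438953472), (6597069766656, 2199023255552)] rfl (by decide +kernel)
theorem B6_c0_t1 : CovD 1 gB6 [(20301479936, 4132438016), (137438953472, 137438953472), (34359738368, 34359738368)] :=
  covD_E kB6_eq (.n 0 (.n 2 (.n 2 (.n 2 (.l 1) (.l 1)) (.n 2 (.l 1) (.l 1))) (.n 2 (.n 2 (.l 1) (.l 1)) (.l 1))) (.n 2 (.n 2 (.n 2 (.l 1) (.l 1)) (.n 0 (.l 1) (.l 1))) (.n 2 (.n 0 (.l 1) (.l 1)) (.l 1))))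
    [(20301479936, 4132438016), (137438953472, 137438953472), (34359738368, 34359738368)] rfl (by decide +kernel)
end

mutual
theorem B6_c0_t2 : CovD 1 gB6 [(20301479936, 4132438016), (137438953472, 137438953472), (103079215104, 34359738368)] :=
  covD_E kB6_eq (.n 2 (.n 0 (.n 2 (.l 1) (.l 1)) (.n 2 (.l 1) (.l 1))) (.n 2 (.n 0 (.l 1) (.l 1)) (.l 1)))
    [(20301479936, 4132438016), (137438953472, 137438953472), (103079215104, 34359738368)] rfl (by decide +kernel)
theorem C6_c0_t4 : CovD 1 gC6 [(18235260928, 2066219008), (17179869184, 17179869184), (549755813888, 549755813888)] :=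
  covD_E kC6_eq (.n 2 (.n 2 (.n 2 (.l 0) (.l 0)) (.n 2 (.l 0) (.l 0))) (.n 2 (.n 2 (.l 0) (.l 0)) (.n 1 (.n 2 (.l 0) (.n 2 (.l 0) (.n 2 (.l 0) (.n 2 (.l 0) (.n 2 (.l 0) (.n 2 (.l 0) (.l 1))))))) (.l 0))))
    [(18235260928, 2066219008), (17179869184, 17179869184), (549755813888, 549755813888)] rfl (by decide +kernel)
end

mutual
theorem C6_c0_t5 : CovD 1 gC6 [(18235260928, 2066219008), (51539607552, 17179869184), (549755813888, 549755813888)] :=
  covD_E kC6_eq (.n 2 (.n 2 (.l 0) (.l 0)) (.n 2 (.l 0) (.l 0)))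
    [(18235260928, 2066219008), (51539607552, 17179869184), (549755813888, 549755813888)] rfl (by decide +kernel)
theorem C6_c0_t6 : CovD 1 gC6 [(18235260928, 2066219008), (103079215104, 34359738368), (549755813888, 549755813888)] :=
  covD_E kC6_eq (.n 2 (.n 2 (.l 0) (.l 0)) (.n 2 (.l 0) (.l 0)))
    [(18235260928, 2066219008), (103079215104, 34359738368), (549755813888, 549755813888)] rfl (by decide +kernel)
end

mutual
theorem C6_c0_t7 : CovD 1 gC6 [(18235260928, 2066219008), (206158430208, 68719476736), (549755813888, 549755813888)] :=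
  covD_E kC6_eq (.n 2 (.n 2 (.l 0) (.l 0)) (.n 2 (.l 0) (.l 0)))
    [(18235260928, 2066219008), (206158430208, 68719476736), (549755813888, 549755813888)] rfl (by decide +kernel)
theorem C6_c0_t11 : CovD 1 gC6 [(22367698944, 2066219008), (17179869184, 17179869184), (549755813888, 549755813888)] :=
  covD_E kC6_eq (.n 2 (.n 2 (.n 2 (.l 0) (.l 0)) (.n 2 (.l 0) (.l 0))) (.n 2 (.n 2 (.l 0) (.l 0)) (.n 1 (.n 2 (.l 0) (.n 2 (.l 0) (.n 2 (.l 0) (.n 2 (.l 0) (.n 2 (.l 0) (.n 2 (.l 0) (.l 1))))))) (.l 0))))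
    [(22367698944, 2066219008), (17179869184, 17179869184), (549755813888, 549755813888)] rfl (by decide +kernel)
end

mutual
theorem C6_c0_t12 : CovD 1 gC6 [(22367698944, 2066219008), (51539607552, 17179869184), (549755813888, 549755813888)] :=
  covD_E kC6_eq (.n 2 (.n 2 (.l 0) (.l 0)) (.n 2 (.l 0) (.l 0)))
    [(22367698944, 2066219008), (51539607552, 17179869184), (549755813888, 549755813888)] rfl (by decide +kernel)
theorem C6_c0_t13 : CovD 1 gC6 [(22367698944, 2066219008), (103079215104, 34359738368), (549755813888, 549755813888)] :=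
  covD_E kC6_eq (.n 2 (.n 2 (.l 0) (.l 0)) (.n 2 (.l 0) (.l 0)))
    [(22367698944, 2066219008), (103079215104, 34359738368), (549755813888, 549755813888)] rfl (by decide +kernel)
end

mutual
theorem C6_c0_t14 : CovD 1 gC6 [(22367698944, 2066219008), (206158430208, 68719476736), (549755813888, 549755813888)] :=
  covD_E kC6_eq (.n 2 (.n 2 (.l 0) (.l 0)) (.n 2 (.l 0) (.l 0)))
    [(22367698944, 2066219008), (206158430208, 68719476736), (549755813888, 549755813888)] rfl (by decide +kernel)
theorem D6_c0 : CovD 1 gD6 [(20301479936, 4132438016), (137438953472, 137438953472), (863610339328, 863610339328)] :=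
  covD_E kD6_eq (.n 2 (.n 2 (.n 2 (.n 2 (.l 0) (.l 0)) (.n 2 (.l 0) (.l 0))) (.n 2 (.n 2 (.l 0) (.l 0)) (.n 2 (.l 0) (.l 0)))) (.n 2 (.n 2 (.n 2 (.l 0) (.l 0)) (.n 2 (.l 0) (.l 0))) (.n 2 (.n 2 (.l 0) (.l 0)) (.n 2 (.l 0) (.l 0)))))
    [(20301479936, 4132438016), (137438953472, 137438953472), (863610339328, 863610339328)] rfl (by decide +kernel)
end

mutual
theorem E6_c0_t3 : CovD 1 gE6 [(20301479936, 4132438016), (137438953472, 137438953472), (107951292416, 107951292416)] :=
  covD_E kE6_eq (.l 1)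
    [(20301479936, 4132438016), (137438953472, 137438953472), (107951292416, 107951292416)] rfl (by decide +kernel)
theorem E6_c0_t5 : CovD 1 gE6 [(20301479936, 4132438016), (137438953472, 137438953472), (269878231040, 53975646208)] :=
  covD_E kE6_eq (.n 2 (.l 1) (.n 2 (.n 0 (.n 0 (.n 0 (.l 0) (.l 0)) (.l 1)) (.l 1)) (.n 0 (.n 2 (.l 0) (.l 0)) (.l 1))))
    [(20301479936, 4132438016), (137438953472, 137438953472), (269878231040, 53975646208)] rfl (by decide +kernel)
end

mutual
theorem E6_c0_t6 : CovD 1 gE6 [(20301479936, 4132438016), (137438953472, 137438953472), (377829523456, 53975646208)] :=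
  covD_E kE6_eq (.n 2 (.n 0 (.n 0 (.n 2 (.l 0) (.l 0)) (.n 2 (.l 0) (.l 0))) (.n 0 (.n 2 (.l 0) (.l 0)) (.n 1 (.l 1) (.l 1)))) (.n 0 (.n 0 (.n 2 (.l 0) (.l 0)) (.n 2 (.l 0) (.l 0))) (.n 2 (.l 0) (.l 0))))
    [(20301479936, 4132438016), (137438953472, 137438953472), (377829523456, 53975646208)] rfl (by decide +kernel)
theorem E6_c0_t8 : CovD 1 gE6 [(20301479936, 4132438016), (137438953472, 137438953472), (539756462080, 107951292416)] :=
  covD_E kE6_eq (.n 2 (.n 2 (.n 0 (.n 2 (.l 0) (.l 0)) (.n 2 (.l 0) (.l 0))) (.n 0 (.n 2 (.l 0) (.l 0)) (.n 2 (.l 0) (.l 0)))) (.n 2 (.n 0 (.n 2 (.l 0) (.l 0)) (.n 0 (.l 0) (.l 0))) (.n 0 (.n 0 (.l 0) (.l 0)) (.l 0))))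
    [(20301479936, 4132438016), (137438953472, 137438953472), (539756462080, 107951292416)] rfl (by decide +kernel)
end

mutual
theorem E6_c0_t9 : CovD 1 gE6 [(20301479936, 4132438016), (137438953472, 137438953472), (755659046912, 107951292416)] :=
  covD_E kE6_eq (.n 2 (.n 2 (.n 2 (.l 0) (.l 0)) (.n 0 (.l 0) (.l 0))) (.n 2 (.n 0 (.l 0) (.l 0)) (.n 0 (.l 0) (.l 0))))
    [(20301479936, 4132438016), (137438953472, 137438953472), (755659046912, 107951292416)] rfl (by decide +kernel)
theorem E6_c0_t10 : CovD 1 gE6 [(20301479936, 4132438016), (137438953472, 137438953472), (1295415508992, 431805169664)] :=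
  covD_E kE6_eq (.n 2 (.n 2 (.n 2 (.n 2 (.n 0 (.l 0) (.l 0)) (.n 0 (.l 0) (.l 0))) (.n 2 (.l 0) (.l 0))) (.n 2 (.n 2 (.l 0) (.l 0)) (.n 2 (.l 0) (.l 0)))) (.n 2 (.n 2 (.n 2 (.l 0) (.l 0)) (.n 2 (.l 0) (.l 0))) (.n 2 (.l 0) (.l 0))))
    [(20301479936, 4132438016), (137438953472, 137438953472), (1295415508992, 431805169664)] rfl (by decide +kernel)
end

theorem A6_c0_t7 : CovD 1 gA6 [(20301479936, 4132438016), (137438953472, 137438953472), (206158430208, 68719476736)] :=
  covD_split 0 (by decide +kernel) A6_c0_t8 A6_c0_t9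

theorem A6_c0_t5 : CovD 1 gA6 [(20301479936, 4132438016), (137438953472, 137438953472), (137438953472, 137438953472)] :=
  covD_split 2 (by decide +kernel) A6_c0_t6 A6_c0_t7

theorem A6_c0_t10 : CovD 1 gA6 [(20301479936, 4132438016), (137438953472, 137438953472), (412316860416, 137438953472)] :=
  covD_split 0 (by decide +kernel) A6_c0_t11 A6_c0_t12

theorem A6_c0_t4 : CovD 1 gA6 [(20301479936, 4132438016), (137438953472, 137438953472), (274877906944, 274877906944)] :=
  covD_split 2 (by decide +kernel) A6_c0_t5 A6_c0_t10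

theorem A6_c0_t13 : CovD 1 gA6 [(20301479936, 4132438016), (137438953472, 137438953472), (824633720832, 274877906944)] :=
  covD_split 0 (by decide +kernel) A6_c0_t14 A6_c0_t15

theorem A6_c0_t3 : CovD 1 gA6 [(20301479936, 4132438016), (137438953472, 137438953472), (549755813888, 549755813888)] :=
  covD_split 2 (by decide +kernel) A6_c0_t4 A6_c0_t13

theorem A6_c0_t16 : CovD 1 gA6 [(20301479936, 4132438016), (137438953472, 137438953472), (1649267441664, 549755813888)] :=
  covD_split 2 (by decide +kernel) A6_c0_t17 A6_c0_t18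

theorem A6_c0_t2 : CovD 1 gA6 [(20301479936, 4132438016), (137438953472, 137438953472), (1099511627776, 1099511627776)] :=
  covD_split 2 (by decide +kernel) A6_c0_t3 A6_c0_t16

theorem A6_c0_t30 : CovD 1 gA6 [(17202151424, 1033109504), (137438953472, 137438953472), (3109556322304, 17179869184)] :=
  covD_split 0 (by decide +kernel) A6_c0_t31 A6_c0_t32

theorem A6_c0_t29 : CovD 1 gA6 [(17202151424, 1033109504), (137438953472, 137438953472), (3126736191488, 34359738368)] :=
  covD_split 2 (by decide +kernel) A6_c0_t30 A6_c0_t33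

theorem A6_c0_t27 : CovD 1 gA6 [(17202151424, 1033109504), (137438953472, 137438953472), (3092376453120, 68719476736)] :=
  covD_split 2 (by decide +kernel) A6_c0_t28 A6_c0_t29

theorem A6_c0_t26 : CovD 1 gA6 [(17202151424, 1033109504), (137438953472, 137438953472), (3161095929856, 137438953472)] :=
  covD_split 2 (by decide +kernel) A6_c0_t27 A6_c0_t34

theorem A6_c0_t24 : CovD 1 gA6 [(17202151424, 1033109504), (137438953472, 137438953472), (3023656976384, 274877906944)] :=
  covD_split 2 (by decide +kernel) A6_c0_t25 A6_c0_t26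

theorem A6_c0_t38 : CovD 1 gA6 [(19268370432, 1033109504), (137438953472, 137438953472), (3092376453120, 68719476736)] :=
  covD_split 0 (by decide +kernel) A6_c0_t39 A6_c0_t40

theorem A6_c0_t37 : CovD 1 gA6 [(19268370432, 1033109504), (137438953472, 137438953472), (3161095929856, 137438953472)] :=
  covD_split 2 (by decide +kernel) A6_c0_t38 A6_c0_t41

theorem A6_c0_t35 : CovD 1 gA6 [(19268370432, 1033109504), (137438953472, 137438953472), (3023656976384, 274877906944)] :=
  covD_split 2 (by decide +kernel) A6_c0_t36 A6_c0_t37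

theorem A6_c0_t23 : CovD 1 gA6 [(18235260928, 2066219008), (137438953472, 137438953472), (3023656976384, 274877906944)] :=
  covD_split 0 (by decide +kernel) A6_c0_t24 A6_c0_t35

theorem A6_c0_t46 : CovD 1 gA6 [(21334589440, 1033109504), (137438953472, 137438953472), (3092376453120, 68719476736)] :=
  covD_split 0 (by decide +kernel) A6_c0_t47 A6_c0_t48

theorem A6_c0_t45 : CovD 1 gA6 [(21334589440, 1033109504), (137438953472, 137438953472), (3161095929856, 137438953472)] :=
  covD_split 2 (by decide +kernel) A6_c0_t46 A6_c0_t49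

theorem A6_c0_t43 : CovD 1 gA6 [(21334589440, 1033109504), (137438953472, 137438953472), (3023656976384, 274877906944)] :=
  covD_split 2 (by decide +kernel) A6_c0_t44 A6_c0_t45

theorem A6_c0_t42 : CovD 1 gA6 [(22367698944, 2066219008), (137438953472, 137438953472), (3023656976384, 274877906944)] :=
  covD_split 0 (by decide +kernel) A6_c0_t43 A6_c0_t50

theorem A6_c0_t22 : CovD 1 gA6 [(20301479936, 4132438016), (137438953472, 137438953472), (3023656976384, 274877906944)] :=
  covD_split 0 (by decide +kernel) A6_c0_t23 A6_c0_t42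

theorem A6_c0_t20 : CovD 1 gA6 [(20301479936, 4132438016), (137438953472, 137438953472), (2748779069440, 549755813888)] :=
  covD_split 2 (by decide +kernel) A6_c0_t21 A6_c0_t22

theorem A6_c0_t19 : CovD 1 gA6 [(20301479936, 4132438016), (137438953472, 137438953472), (3298534883328, 1099511627776)] :=
  covD_split 2 (by decide +kernel) A6_c0_t20 A6_c0_t51

theorem A6_c0_t1 : CovD 1 gA6 [(20301479936, 4132438016), (137438953472, 137438953472), (2199023255552, 2199023255552)] :=
  covD_split 2 (by decide +kernel) A6_c0_t2 A6_c0_t19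

theorem A6_c0 : CovD 1 gA6 [(20301479936, 4132438016), (137438953472, 137438953472), (4398046511104, 4398046511104)] :=
  covD_split 2 (by decide +kernel) A6_c0_t1 A6_c0_t52

theorem B6_c0 : CovD 1 gB6 [(20301479936, 4132438016), (137438953472, 137438953472), (68719476736, 68719476736)] :=
  covD_split 2 (by decide +kernel) B6_c0_t1 B6_c0_t2

theorem C6_c0_t3 : CovD 1 gC6 [(18235260928, 2066219008), (34359738368, 34359738368), (549755813888, 549755813888)] :=
  covD_split 1 (by decide +kernel) C6_c0_t4 C6_c0_t5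

theorem C6_c0_t2 : CovD 1 gC6 [(18235260928, 2066219008), (68719476736, 68719476736), (549755813888, 549755813888)] :=
  covD_split 1 (by decide +kernel) C6_c0_t3 C6_c0_t6

theorem C6_c0_t1 : CovD 1 gC6 [(18235260928, 2066219008), (137438953472, 137438953472), (549755813888, 549755813888)] :=
  covD_split 1 (by decide +kernel) C6_c0_t2 C6_c0_t7

theorem C6_c0_t10 : CovD 1 gC6 [(22367698944, 2066219008), (34359738368, 34359738368), (549755813888, 549755813888)] :=
  covD_split 1 (by decide +kernel) C6_c0_t11 C6_c0_t12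

theorem C6_c0_t9 : CovD 1 gC6 [(22367698944, 2066219008), (68719476736, 68719476736), (549755813888, 549755813888)] :=
  covD_split 1 (by decide +kernel) C6_c0_t10 C6_c0_t13

theorem C6_c0_t8 : CovD 1 gC6 [(22367698944, 2066219008), (137438953472, 137438953472), (549755813888, 549755813888)] :=
  covD_split 1 (by decide +kernel) C6_c0_t9 C6_c0_t14

theorem C6_c0 : CovD 1 gC6 [(20301479936, 4132438016), (137438953472, 137438953472), (549755813888, 549755813888)] :=
  covD_split 0 (by decide +kernel) C6_c0_t1 C6_c0_t8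

theorem E6_c0_t4 : CovD 1 gE6 [(20301479936, 4132438016), (137438953472, 137438953472), (323853877248, 107951292416)] :=
  covD_split 2 (by decide +kernel) E6_c0_t5 E6_c0_t6

theorem E6_c0_t2 : CovD 1 gE6 [(20301479936, 4132438016), (137438953472, 137438953472), (215902584832, 215902584832)] :=
  covD_split 2 (by decide +kernel) E6_c0_t3 E6_c0_t4

theorem E6_c0_t7 : CovD 1 gE6 [(20301479936, 4132438016), (137438953472, 137438953472), (647707754496, 215902584832)] :=
  covD_split 2 (by decide +kernel) E6_c0_t8 E6_c0_t9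

theorem E6_c0_t1 : CovD 1 gE6 [(20301479936, 4132438016), (137438953472, 137438953472), (431805169664, 431805169664)] :=
  covD_split 2 (by decide +kernel) E6_c0_t2 E6_c0_t7

theorem E6_c0 : CovD 1 gE6 [(20301479936, 4132438016), (137438953472, 137438953472), (863610339328, 863610339328)] :=
  covD_split 2 (by decide +kernel) E6_c0_t1 E6_c0_t10

end Pool.Agent.helper14.NS.Q45a
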