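import Pool.Agent.helper14.NS.Q45a.PZ

/-!
Generated: certificates.
-/

namespace Pool.Agent.helper14.NS.Q45a

open Pool.Agent.helper31.IA (Z)
open Pool.Agent.helper31.IX (Op XOps runX Cov CovD cov_split covD_split)
open Pool.Agent.helper31.IC (TD)
open Pool.Agent.helper63.RG (reloc)
open Pool.Agent.helper63.NF hiding TD
open Pool.Agent.helper4.NS
open Pool.Agent.helper14.CF (xE covD_E)
open Pool.Agent.helper14.NR (share)

mutual
theorem Z_c0_t5 : CovD 1 gZ [(20301479936, 4132438016), (68719476736, 68719476736), (81979375616, 27004633088)] :=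
  covD_E kZ_eq (.n 1 (.n 1 (.n 2 (.n 2 (.n 0 (.l 0) (.l 0)) (.l 0)) (.n 0 (.l 0) (.l 0))) (.n 2 (.n 1 (.l 0) (.l 0)) (.l 0))) (.n 1 (.n 2 (.l 0) (.l 0)) (.n 2 (.l 0) (.l 0))))
    [(20301479936, 4132438016), (68719476736, 68719476736), (81979375616, 27004633088)] rfl (by decide +kernel)
theorem Z_c0_t6 : CovD 1 gZ [(20301479936, 4132438016), (206158430208, 68719476736), (81979375616, 27004633088)] :=
  covD_E kZ_eq (.n 1 (.n 1 (.n 2 (.l 0) (.l 0)) (.n 0 (.l 0) (.l 0))) (.n 0 (.n 1 (.l 0) (.l 0)) (.n 1 (.l 0) (.l 0))))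
    [(20301479936, 4132438016), (206158430208, 68719476736), (81979375616, 27004633088)] rfl (by decide +kernel)
end

mutual
theorem Z_c0_t7 : CovD 1 gZ [(20301479936, 4132438016), (137438953472, 137438953472), (135988641792, 27004633088)] :=
  covD_E kZ_eq (.n 1 (.n 1 (.n 2 (.n 0 (.l 0) (.l 0)) (.l 0)) (.n 2 (.n 0 (.l 0) (.l 0)) (.l 0))) (.n 1 (.n 0 (.n 1 (.l 0) (.l 0)) (.n 1 (.l 0) (.l 0))) (.n 1 (.n 0 (.l 0) (.l 0)) (.l 0))))
    [(20301479936, 4132438016), (137438953472, 137438953472), (135988641792, 27004633088)] rfl (by decide +kernel)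
theorem Z_c0_t9 : CovD 1 gZ [(20301479936, 4132438016), (137438953472, 137438953472), (189997907968, 27004633088)] :=
  covD_E kZ_eq (.n 1 (.n 1 (.n 1 (.l 0) (.l 0)) (.n 2 (.l 0) (.l 0))) (.n 1 (.n 0 (.n 1 (.l 0) (.l 0)) (.n 0 (.l 0) (.l 0))) (.n 1 (.l 0) (.l 0))))
    [(20301479936, 4132438016), (137438953472, 137438953472), (189997907968, 27004633088)] rfl (by decide +kernel)
end

mutual
theorem Z_c0_t10 : CovD 1 gZ [(20301479936, 4132438016), (137438953472, 137438953472), (244007174144, 27004633088)] :=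
  covD_E kZ_eq (.n 1 (.n 1 (.n 0 (.l 0) (.l 0)) (.n 2 (.l 0) (.l 0))) (.n 1 (.n 0 (.n 1 (.l 0) (.l 0)) (.n 0 (.l 0) (.l 0))) (.n 2 (.l 0) (.l 0))))
    [(20301479936, 4132438016), (137438953472, 137438953472), (244007174144, 27004633088)] rfl (by decide +kernel)
theorem Z_c0_t13 : CovD 1 gZ [(20301479936, 4132438016), (137438953472, 137438953472), (298016440320, 27004633088)] :=
  covD_E kZ_eq (.n 0 (.n 1 (.n 1 (.n 0 (.l 0) (.l 0)) (.n 1 (.l 0) (.l 0))) (.n 1 (.n 1 (.l 0) (.l 0)) (.l 0))) (.n 1 (.n 1 (.l 0) (.n 0 (.l 0) (.l 0))) (.n 1 (.l 0) (.l 0))))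
    [(20301479936, 4132438016), (137438953472, 137438953472), (298016440320, 27004633088)] rfl (by decide +kernel)
end

mutual
theorem Z_c0_t14 : CovD 1 gZ [(20301479936, 4132438016), (137438953472, 137438953472), (352025706496, 27004633088)] :=
  covD_E kZ_eq (.n 0 (.n 1 (.n 1 (.n 1 (.l 0) (.l 0)) (.n 1 (.l 0) (.l 0))) (.n 1 (.n 1 (.l 0) (.l 0)) (.n 0 (.l 0) (.l 0)))) (.n 1 (.n 0 (.n 1 (.l 0) (.l 0)) (.n 1 (.l 0) (.l 0))) (.n 1 (.n 0 (.l 0) (.l 0)) (.l 0))))
    [(20301479936, 4132438016), (137438953472, 137438953472), (352025706496, 27004633088)] rfl (by decide +kernel)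
theorem Z_c0_t16 : CovD 1 gZ [(20301479936, 4132438016), (137438953472, 137438953472), (406034972672, 27004633088)] :=
  covD_E kZ_eq (.n 0 (.n 1 (.n 1 (.n 2 (.l 0) (.l 0)) (.n 2 (.l 0) (.l 0))) (.n 1 (.n 1 (.l 0) (.l 0)) (.n 0 (.l 0) (.l 0)))) (.n 1 (.n 1 (.n 1 (.l 0) (.l 0)) (.n 0 (.l 0) (.l 0))) (.n 1 (.n 0 (.l 0) (.l 0)) (.l 0))))
    [(20301479936, 4132438016), (137438953472, 137438953472), (406034972672, 27004633088)] rfl (by decide +kernel)
end

mutual
theorem Z_c0_t17 : CovD 1 gZ [(20301479936, 4132438016), (137438953472, 137438953472), (460044238848, 27004633088)] :=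
  covD_E kZ_eq (.n 0 (.n 1 (.n 1 (.n 2 (.l 0) (.l 0)) (.n 2 (.l 0) (.l 0))) (.n 1 (.n 1 (.l 0) (.l 0)) (.l 0))) (.n 1 (.n 1 (.n 2 (.l 0) (.l 0)) (.n 1 (.l 0) (.l 0))) (.n 1 (.n 0 (.l 0) (.l 0)) (.l 0))))
    [(20301479936, 4132438016), (137438953472, 137438953472), (460044238848, 27004633088)] rfl (by decide +kernel)
theorem Z_c0_t21 : CovD 1 gZ [(20301479936, 4132438016), (137438953472, 137438953472), (514053505024, 27004633088)] :=
  covD_E kZ_eq (.n 0 (.n 1 (.n 1 (.n 2 (.l 0) (.l 0)) (.n 2 (.l 0) (.l 0))) (.n 1 (.n 1 (.l 0) (.l 0)) (.l 0))) (.n 1 (.n 1 (.n 2 (.l 0) (.l 0)) (.n 0 (.l 0) (.l 0))) (.n 1 (.l 0) (.l 0))))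
    [(20301479936, 4132438016), (137438953472, 137438953472), (514053505024, 27004633088)] rfl (by decide +kernel)
end

mutual
theorem Z_c0_t22 : CovD 1 gZ [(20301479936, 4132438016), (137438953472, 137438953472), (568062771200, 27004633088)] :=
  covD_E kZ_eq (.n 0 (.n 1 (.n 1 (.n 2 (.l 0) (.l 0)) (.n 2 (.l 0) (.l 0))) (.n 1 (.n 0 (.l 0) (.l 0)) (.l 0))) (.n 1 (.n 1 (.n 1 (.l 0) (.l 0)) (.n 0 (.l 0) (.l 0))) (.n 1 (.l 0) (.l 0))))
    [(20301479936, 4132438016), (137438953472, 137438953472), (568062771200, 27004633088)] rfl (by decide +kernel)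
theorem Z_c0_t24 : CovD 1 gZ [(20301479936, 4132438016), (137438953472, 137438953472), (622072037376, 27004633088)] :=
  covD_E kZ_eq (.n 0 (.n 1 (.n 1 (.n 2 (.l 0) (.l 0)) (.n 2 (.l 0) (.l 0))) (.n 1 (.n 0 (.l 0) (.l 0)) (.l 0))) (.n 1 (.n 1 (.n 1 (.l 0) (.l 0)) (.n 0 (.l 0) (.l 0))) (.n 1 (.l 0) (.l 0))))
    [(20301479936, 4132438016), (137438953472, 137438953472), (622072037376, 27004633088)] rfl (by decide +kernel)
end

mutual
theorem Z_c0_t25 : CovD 1 gZ [(20301479936, 4132438016), (137438953472, 137438953472), (676081303552, 27004633088)] :=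
  covD_E kZ_eq (.n 0 (.n 1 (.n 1 (.n 2 (.l 0) (.l 0)) (.n 2 (.l 0) (.l 0))) (.n 0 (.n 1 (.l 0) (.l 0)) (.n 1 (.l 0) (.l 0)))) (.n 1 (.n 0 (.n 1 (.l 0) (.l 0)) (.n 1 (.l 0) (.l 0))) (.n 1 (.l 0) (.l 0))))
    [(20301479936, 4132438016), (137438953472, 137438953472), (676081303552, 27004633088)] rfl (by decide +kernel)
theorem Z_c0_t28 : CovD 1 gZ [(20301479936, 4132438016), (137438953472, 137438953472), (730090569728, 27004633088)] :=
  covD_E kZ_eq (.n 0 (.n 1 (.n 1 (.n 2 (.l 0) (.l 0)) (.n 0 (.l 0) (.l 0))) (.n 0 (.n 1 (.l 0) (.l 0)) (.n 1 (.l 0) (.l 0)))) (.n 1 (.n 0 (.n 1 (.l 0) (.l 0)) (.n 1 (.l 0) (.l 0))) (.n 1 (.l 0) (.l 0))))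
    [(20301479936, 4132438016), (137438953472, 137438953472), (730090569728, 27004633088)] rfl (by decide +kernel)
end

mutual
theorem Z_c0_t29 : CovD 1 gZ [(20301479936, 4132438016), (137438953472, 137438953472), (784099835904, 27004633088)] :=
  covD_E kZ_eq (.n 0 (.n 1 (.n 1 (.n 2 (.l 0) (.l 0)) (.n 0 (.l 0) (.l 0))) (.n 0 (.n 1 (.l 0) (.l 0)) (.n 1 (.l 0) (.l 0)))) (.n 0 (.n 1 (.n 1 (.l 0) (.l 0)) (.n 1 (.l 0) (.l 0))) (.n 1 (.n 1 (.l 0) (.l 0)) (.n 1 (.l 0) (.l 0)))))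
    [(20301479936, 4132438016), (137438953472, 137438953472), (784099835904, 27004633088)] rfl (by decide +kernel)
theorem Z_c0_t31 : CovD 1 gZ [(20301479936, 4132438016), (137438953472, 137438953472), (838109102080, 27004633088)] :=
  covD_E kZ_eq (.n 0 (.n 0 (.n 1 (.n 1 (.l 0) (.l 0)) (.n 1 (.l 0) (.l 0))) (.n 1 (.n 1 (.l 0) (.l 0)) (.n 1 (.l 0) (.l 0)))) (.n 0 (.n 1 (.n 1 (.l 0) (.l 0)) (.n 1 (.l 0) (.l 0))) (.n 1 (.n 1 (.l 0) (.l 0)) (.n 1 (.l 0) (.l 0)))))
    [(20301479936, 4132438016), (137438953472, 137438953472), (838109102080, 27004633088)] rfl (by decide +kernel)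
end

mutual
theorem Z_c0_t33 : CovD 1 gZ [(18235260928, 2066219008), (137438953472, 137438953472), (892118368256, 27004633088)] :=
  covD_E kZ_eq (.n 1 (.n 1 (.n 2 (.l 0) (.l 0)) (.n 2 (.l 0) (.l 0))) (.n 2 (.n 1 (.l 0) (.l 0)) (.n 1 (.l 0) (.n 0 (.l 0) (.l 0)))))
    [(18235260928, 2066219008), (137438953472, 137438953472), (892118368256, 27004633088)] rfl (by decide +kernel)
theorem Z_c0_t34 : CovD 1 gZ [(22367698944, 2066219008), (137438953472, 137438953472), (892118368256, 27004633088)] :=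
  covD_E kZ_eq (.n 0 (.n 1 (.n 1 (.l 0) (.l 0)) (.n 1 (.l 0) (.l 0))) (.n 1 (.n 1 (.l 0) (.l 0)) (.n 1 (.l 0) (.l 0))))
    [(22367698944, 2066219008), (137438953472, 137438953472), (892118368256, 27004633088)] rfl (by decide +kernel)
end

mutual
theorem T_c0 : CovD 1 gT [(20301479936, 4132438016), (137438953472, 137438953472)] :=
  covD_E kT_eq (.n 0 (.n 1 (.l 0) (.n 1 (.l 0) (.l 0))) (.l 0))
    [(20301479936, 4132438016), (137438953472, 137438953472)] rfl (by decide +kernel)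
theorem S_c0 : CovD 0 gS [(20301479936, 4132438016), (137438953472, 137438953472)] :=
  covD_E kS_eq (.l 0)
    [(20301479936, 4132438016), (137438953472, 137438953472)] rfl (by decide +kernel)
end

theorem Z_c0_t4 : CovD 1 gZ [(20301479936, 4132438016), (137438953472, 137438953472), (81979375616, 27004633088)] :=
  covD_split 1 (by decide +kernel) Z_c0_t5 Z_c0_t6

theorem Z_c0_t3 : CovD 1 gZ [(20301479936, 4132438016), (137438953472, 137438953472), (108984008704, 54009266176)] :=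
  covD_split 2 (by decide +kernel) Z_c0_t4 Z_c0_t7

theorem Z_c0_t8 : CovD 1 gZ [(20301479936, 4132438016), (137438953472, 137438953472), (217002541056, 54009266176)] :=
  covD_split 2 (by decide +kernel) Z_c0_t9 Z_c0_t10

theorem Z_c0_t2 : CovD 1 gZ [(20301479936, 4132438016), (137438953472, 137438953472), (162993274880, 108018532352)] :=
  covD_split 2 (by decide +kernel) Z_c0_t3 Z_c0_t8

theorem Z_c0_t12 : CovD 1 gZ [(20301479936, 4132438016), (137438953472, 137438953472), (325021073408, 54009266176)] :=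
  covD_split 2 (by decide +kernel) Z_c0_t13 Z_c0_t14

theorem Z_c0_t15 : CovD 1 gZ [(20301479936, 4132438016), (137438953472, 137438953472), (433039605760, 54009266176)] :=
  covD_split 2 (by decide +kernel) Z_c0_t16 Z_c0_t17

theorem Z_c0_t11 : CovD 1 gZ [(20301479936, 4132438016), (137438953472, 137438953472), (379030339584, 108018532352)] :=
  covD_split 2 (by decide +kernel) Z_c0_t12 Z_c0_t15

theorem Z_c0_t1 : CovD 1 gZ [(20301479936, 4132438016), (137438953472, 137438953472), (271011807232, 216037064704)] :=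
  covD_split 2 (by decide +kernel) Z_c0_t2 Z_c0_t11

theorem Z_c0_t20 : CovD 1 gZ [(20301479936, 4132438016), (137438953472, 137438953472), (541058138112, 54009266176)] :=
  covD_split 2 (by decide +kernel) Z_c0_t21 Z_c0_t22

theorem Z_c0_t23 : CovD 1 gZ [(20301479936, 4132438016), (137438953472, 137438953472), (649076670464, 54009266176)] :=
  covD_split 2 (by decide +kernel) Z_c0_t24 Z_c0_t25

theorem Z_c0_t19 : CovD 1 gZ [(20301479936, 4132438016), (137438953472, 137438953472), (595067404288, 108018532352)] :=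
  covD_split 2 (by decide +kernel) Z_c0_t20 Z_c0_t23

theorem Z_c0_t27 : CovD 1 gZ [(20301479936, 4132438016), (137438953472, 137438953472), (757095202816, 54009266176)] :=
  covD_split 2 (by decide +kernel) Z_c0_t28 Z_c0_t29

theorem Z_c0_t32 : CovD 1 gZ [(20301479936, 4132438016), (137438953472, 137438953472), (892118368256, 27004633088)] :=
  covD_split 0 (by decide +kernel) Z_c0_t33 Z_c0_t34

theorem Z_c0_t30 : CovD 1 gZ [(20301479936, 4132438016), (137438953472, 137438953472), (865113735168, 54009266176)] :=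
  covD_split 2 (by decide +kernel) Z_c0_t31 Z_c0_t32

theorem Z_c0_t26 : CovD 1 gZ [(20301479936, 4132438016), (137438953472, 137438953472), (811104468992, 108018532352)] :=
  covD_split 2 (by decide +kernel) Z_c0_t27 Z_c0_t30

theorem Z_c0_t18 : CovD 1 gZ [(20301479936, 4132438016), (137438953472, 137438953472), (703085936640, 216037064704)] :=
  covD_split 2 (by decide +kernel) Z_c0_t19 Z_c0_t26

theorem Z_c0 : CovD 1 gZ [(20301479936, 4132438016), (137438953472, 137438953472), (487048871936, 432074129408)] :=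
  covD_split 2 (by decide +kernel) Z_c0_t1 Z_c0_t18

end Pool.Agent.helper14.NS.Q45a
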